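import Pool.Agent.MP_6c6e33_an.Defs
import Mathlib

section

/-!
Every frame is the image of a Parseval frame under a bounded invertible operator.
-/

open scoped InnerProductSpace ENNReal

noncomputable section

namespace Pool.Agent.MP_6c6e33_an

variable {ι H : Type} [NormedAddCommGroup H] [InnerProductSpace ℂ H]

/-- Parseval frames. -/
def IsParseval (u : ι → H) : Prop :=
  ∀ x : H, HasSum (fun k => ‖⟪x, u k⟫_ℂ‖ ^ 2) (‖x‖ ^ 2)

theorem exists_analysis (f : ι → H) (B : ℝ) (hB : 0 < B)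
    (hs : ∀ x : H, Summable (fun k => ‖⟪x, f k⟫_ℂ‖ ^ 2))
    (hb : ∀ x : H, ∑' k, ‖⟪x, f k⟫_ℂ‖ ^ 2 ≤ B * ‖x‖ ^ 2) :
    ∃ C : H →L[ℂ] lp (fun _ : ι => ℂ) 2,
      ∀ x, HasSum (fun k => ‖⟪x, f k⟫_ℂ‖ ^ 2) (‖C x‖ ^ 2) := by
  have h2 : (0 : ℝ) < (2 : ℝ≥0∞).toReal := by norm_num
  have hmem : ∀ x : H, Memℓp (fun k : ι => ⟪f k, x⟫_ℂ) 2 := by
    intro x
    apply memℓp_gen
    have := hs x
    simp only [ENNReal.toReal_ofNat, Real.rpow_ofNat]
    simpa only [norm_inner_symm x] using this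
  let C0 : H →ₗ[ℂ] lp (fun _ : ι => ℂ) 2 :=
    { toFun := fun x => ⟨fun k => ⟪f k, x⟫_ℂ, hmem x⟩
      map_add' := by
        intro x y
        ext k
        simp
      map_smul' := by
        intro c x
        ext k
        simp }
  have hC0 : ∀ x, HasSum (fun k => ‖⟪x, f k⟫_ℂ‖ ^ 2) (‖C0 x‖ ^ 2) := by
    intro x
    have := lp.hasSum_norm h2 (C0 x)
    simp only [ENNReal.toReal_ofNat, Real.rpow_ofNat] at this
    simpa only [norm_inner_symm x] using! this
  refine ⟨C0.mkContinuous (Real.sqrt B) (fun x => ?_), fun x => hC0 x⟩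
  have h1 : ‖C0 x‖ ^ 2 ≤ (Real.sqrt B * ‖x‖) ^ 2 := by
    rw [mul_pow, Real.sq_sqrt hB.le, ← (hC0 x).tsum_eq]
    exact hb x
  exact (pow_le_pow_iff_left₀ (norm_nonneg _) (by positivity) two_ne_zero).1 h1

theorem exists_parseval [CompleteSpace H] (f : ι → H) (hf : IsFrame f) :
    ∃ R : H ≃L[ℂ] H, IsParseval (fun k => R.symm (f k)) := by
  obtain ⟨A, B, hA, hB, hAB⟩ := hf
  obtain ⟨C, hC⟩ := exists_analysis f B hB (fun x => (hAB x).1) (fun x => (hAB x).2.2)
  set S : H →L[ℂ] H := (ContinuousLinearMap.adjoint C) ∘L C with hS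
  have hSx : ∀ x, ⟪S x, x⟫_ℂ = ((‖C x‖ ^ 2 : ℝ) : ℂ) := by
    intro x
    rw [hS, ContinuousLinearMap.comp_apply, ContinuousLinearMap.adjoint_inner_left,
      inner_self_eq_norm_sq_to_K]
    norm_cast
  have hSpos : 0 ≤ S := by
    rw [ContinuousLinearMap.nonneg_iff_isPositive, ContinuousLinearMap.isPositive_iff_complex]
    intro x
    rw [hSx]
    simp only [RCLike.re_to_complex, Complex.ofReal_re, true_and]
    positivity
  have hSunit : IsUnit S := by
    refine ContinuousLinearMap.isUnit_of_forall_le_norm_inner_map S (c := ⟨A, hA.le⟩) hA ?_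
    intro x
    rw [hSx, Complex.norm_real, Real.norm_of_nonneg (by positivity), ← (hC x).tsum_eq, mul_comm]
    exact (hAB x).2.1
  have hRunit : IsUnit (CFC.sqrt S) := (CFC.isUnit_sqrt_iff S hSpos).2 hSunit
  have hRR : CFC.sqrt S * CFC.sqrt S = S := CFC.sqrt_mul_sqrt_self S hSpos
  have hRsa : IsSelfAdjoint (CFC.sqrt S) := (CFC.sqrt_nonneg S).isSelfAdjoint
  obtain ⟨r, hr⟩ := hRunit
  let R : H ≃L[ℂ] H := ContinuousLinearEquiv.unitsEquiv ℂ H r
  have hR : ∀ x, R x = CFC.sqrt S x := by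
    intro x
    rw [← hr]; rfl
  have hsym : ∀ x y, ⟪R x, y⟫_ℂ = ⟪x, R y⟫_ℂ := by
    intro x y
    rw [hR, hR]
    exact hRsa.isSymmetric x y
  refine ⟨R, fun x => ?_⟩
  obtain ⟨y, rfl⟩ := R.surjective x
  have e1 : ∀ k, ⟪R y, R.symm (f k)⟫_ℂ = ⟪y, f k⟫_ℂ := by
    intro k
    rw [hsym, R.apply_symm_apply]
  simp only [e1]
  have e2 : ‖R y‖ ^ 2 = ‖C y‖ ^ 2 := by
    have h1 : ⟪R y, R y⟫_ℂ = ⟪S y, y⟫_ℂ := by
      rw [← hsym, hR, hR, ← mul_apply_eq_comp, hRR]
    rw [hSx] at h1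
    have h2 := congrArg Complex.re h1
    rw [Complex.ofReal_re] at h2
    rw [← h2, ← inner_self_eq_norm_sq (𝕜 := ℂ)]
    rfl
  rw [e2]
  exact hC y

end Pool.Agent.MP_6c6e33_an

end
end

section

/-!
A growth argument: a bijection `ℤ → ℤ²` cannot carry a nontrivial decaying translation invariant
kernel on `ℤ` to a translation invariant kernel on `ℤ²`.
-/

namespace Pool.Agent.MP_6c6e33_an

theorem no_lipschitz (ψ : ℤ × ℤ → ℤ) (hψ : Function.Injective ψ) (l0 l1 : ℤ × ℤ)
    (hdet : l0.1 * l1.2 - l0.2 * l1.1 ≠ 0) (M : ℕ)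
    (h0 : ∀ l, |ψ (l + l0) - ψ l| ≤ M) (h1 : ∀ l, |ψ (l + l1) - ψ l| ≤ M) : False := by
  have hA : ∀ u : ℕ, |ψ ((u : ℤ) • l0) - ψ 0| ≤ M * u := by
    intro u
    induction u with
    | zero => simp
    | succ u ih =>
      have e : ((u + 1 : ℕ) : ℤ) • l0 = (u : ℤ) • l0 + l0 := by
        push_cast; rw [add_smul, one_smul]
      rw [e]
      have := h0 ((u : ℤ) • l0)
      rw [abs_le] at *
      push_cast
      constructor <;> nlinarith [this.1, this.2, ih.1, ih.2]
  have hB : ∀ u v : ℕ, |ψ ((u : ℤ) • l0 + (v : ℤ) • l1) - ψ 0| ≤ M * u + M * v := by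
    intro u v
    induction v with
    | zero => simpa using hA u
    | succ v ih =>
      have e : (u : ℤ) • l0 + ((v + 1 : ℕ) : ℤ) • l1 = ((u : ℤ) • l0 + (v : ℤ) • l1) + l1 := by
        push_cast; rw [add_smul, one_smul, add_assoc]
      rw [e]
      have := h1 ((u : ℤ) • l0 + (v : ℤ) • l1)
      rw [abs_le] at *
      push_cast
      constructor <;> nlinarith [this.1, this.2, ih.1, ih.2]
  set r : ℕ := 4 * M + 2 with hr
  let G : ℕ × ℕ → ℤ := fun p => ψ ((p.1 : ℤ) • l0 + (p.2 : ℤ) • l1)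
  have hGinj : Function.Injective G := by
    rintro ⟨u, v⟩ ⟨u', v'⟩ huv
    have h := hψ huv
    have e1 := congrArg Prod.fst h
    have e2 := congrArg Prod.snd h
    simp only [Prod.fst_add, Prod.snd_add, Prod.smul_fst, Prod.smul_snd, smul_eq_mul] at e1 e2
    have hu : ((u : ℤ) - u') * (l0.1 * l1.2 - l0.2 * l1.1) = 0 := by
      linear_combination l1.2 * e1 - l1.1 * e2
    have hv : ((v : ℤ) - v') * (l0.1 * l1.2 - l0.2 * l1.1) = 0 := by
      linear_combination l0.1 * e2 - l0.2 * e1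
    rcases mul_eq_zero.1 hu with hu | hu
    · rcases mul_eq_zero.1 hv with hv | hv
      · have : u = u' := by omega
        have : v = v' := by omega
        subst_vars; rfl
      · exact absurd hv hdet
    · exact absurd hu hdet
  have hmaps : Set.MapsTo G ((Finset.range r ×ˢ Finset.range r : Finset (ℕ × ℕ)) : Set (ℕ × ℕ))
      (Finset.Icc (ψ 0 - 2 * M * r) (ψ 0 + 2 * M * r) : Finset ℤ) := by
    rintro ⟨u, v⟩ huv
    simp only [Finset.coe_product, Finset.coe_range, Set.mem_prod, Set.mem_Iio] at huv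
    have := hB u v
    have hu : (u : ℤ) ≤ r := by exact_mod_cast huv.1.le
    have hv : (v : ℤ) ≤ r := by exact_mod_cast huv.2.le
    have hM : (0 : ℤ) ≤ M := by positivity
    rw [abs_le] at this
    simp only [Finset.coe_Icc, Set.mem_Icc, G]
    constructor <;> nlinarith [this.1, this.2, mul_le_mul_of_nonneg_left hu hM,
      mul_le_mul_of_nonneg_left hv hM]
  have hcard := Finset.card_le_card_of_injOn G hmaps hGinj.injOn
  rw [Finset.card_product, Finset.card_range, Int.card_Icc] at hcard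
  have e : (ψ 0 + 2 * M * r + 1 - (ψ 0 - 2 * M * r)) = ((4 * M * r + 1 : ℕ) : ℤ) := by
    push_cast; ring
  rw [e, Int.toNat_natCast] at hcard
  rw [hr] at hcard
  nlinarith

theorem growth (σ : ℤ ≃ ℤ × ℤ) (h : ℤ → ℝ) (F : ℤ × ℤ → ℝ)
    (hF : ∀ j k, h (j - k) = F (σ j - σ k)) (hnonneg : ∀ j, 0 ≤ h j)
    (hfin : ∀ t > 0, {j | t ≤ h j}.Finite) (d : ℤ) (hd : d ≠ 0) : h d = 0 := by
  by_contra hne
  have hpos : 0 < h d := lt_of_le_of_ne (hnonneg d) (Ne.symm hne)
  set l0 := σ d - σ 0 with hl0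
  have hl0ne : l0 ≠ 0 := by
    intro h0
    exact hd (σ.injective (sub_eq_zero.1 h0))
  have hFl0 : F l0 = h d := by rw [hl0, ← hF, sub_zero]
  by_cases hcase : ∃ l1, 0 < F l1 ∧ l0.1 * l1.2 - l0.2 * l1.1 ≠ 0
  · obtain ⟨l1, hl1, hdet⟩ := hcase
    have ht : 0 < min (F l0) (F l1) := lt_min (hFl0 ▸ hpos) hl1
    obtain ⟨M, hM⟩ : ∃ M : ℕ, ∀ j, min (F l0) (F l1) ≤ h j → |j| ≤ M := by
      obtain ⟨M, hM⟩ := ((hfin _ ht).image (fun j => j.natAbs)).bddAbove
      refine ⟨M, fun j hj => ?_⟩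
      have : j.natAbs ≤ M := hM ⟨j, hj, rfl⟩
      rw [← Int.natCast_natAbs]
      exact_mod_cast this
    refine no_lipschitz σ.symm σ.symm.injective l0 l1 hdet M (fun l => hM _ ?_) (fun l => hM _ ?_)
    · rw [hF]; simp
    · rw [hF]; simp
  · push Not at hcase
    let p : ℤ → ℤ := fun j => l0.1 * (σ j).2 - l0.2 * (σ j).1
    have hper : Function.Periodic p d := by
      intro j
      have h1 : 0 < F (σ (j + d) - σ j) := by
        rw [← hF]; simpa using hpos
      have := hcase _ h1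
      simp only [Prod.fst_sub, Prod.snd_sub] at this
      simp only [p]
      linear_combination this
    have hfinr : (Set.range p).Finite := by
      refine ((Set.finite_Ico 0 |d|).image p).subset ?_
      rintro _ ⟨j, rfl⟩
      refine ⟨j % d, ⟨Int.emod_nonneg j hd, Int.emod_lt_abs j hd⟩, ?_⟩
      have := hper.sub_int_mul_eq (x := j) (j / d)
      rw [← this]
      congr 1
      rw [Int.emod_def]; push_cast; ring
    have hN : 0 < l0.1 ^ 2 + l0.2 ^ 2 := by
      by_contra hcon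
      have h1 : l0.1 = 0 := by nlinarith [sq_nonneg l0.1, sq_nonneg l0.2]
      have h2 : l0.2 = 0 := by nlinarith [sq_nonneg l0.1, sq_nonneg l0.2]
      exact hl0ne (Prod.ext h1 h2)
    have hinf : (Set.range p).Infinite := by
      refine Set.infinite_of_injective_forall_mem
        (f := fun n : ℤ => n * (l0.1 ^ 2 + l0.2 ^ 2)) ?_ ?_
      · intro n m hnm
        exact mul_right_cancel₀ hN.ne' hnm
      · intro n
        refine ⟨σ.symm (-n * l0.2, n * l0.1), ?_⟩
        simp only [p, Equiv.apply_symm_apply]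
        ring
    exact hinf hfinr

end Pool.Agent.MP_6c6e33_an

end

section

/-!
The Hilbert space part of the argument.
-/

open scoped InnerProductSpace

noncomputable section

namespace Pool.Agent.MP_6c6e33_an

variable {ι H : Type} [NormedAddCommGroup H] [InnerProductSpace ℂ H]

theorem IsParseval.reindex {κ : Type} {u : ι → H} (hu : IsParseval u) (σ : κ ≃ ι) :
    IsParseval (fun k => u (σ k)) := fun x =>
  (σ.hasSum_iff (f := fun k => ‖⟪x, u k⟫_ℂ‖ ^ 2)).2 (hu x)

theorem IsParseval.dense_span [CompleteSpace H] {u : ι → H} (hu : IsParseval u) :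
    (Submodule.span ℂ (Set.range u))ᗮ = ⊥ := by
  rw [Submodule.eq_bot_iff]
  intro x hx
  have h0 : ∀ k, ⟪x, u k⟫_ℂ = 0 := fun k =>
    Submodule.inner_left_of_mem_orthogonal (Submodule.subset_span (Set.mem_range_self k)) hx
  have := hu x
  simp only [h0, norm_zero, ne_eq, OfNat.ofNat_ne_zero, not_false_eq_true, zero_pow] at this
  have h1 := this.unique hasSum_zero
  simpa using h1

theorem IsParseval.norm_adjoint [CompleteSpace H] {u : ι → H} (hu : IsParseval u)
    (W : H →L[ℂ] H) (τ : ι ≃ ι) (c : ι → ℂ) (hc : ∀ i, ‖c i‖ = 1)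
    (hW : ∀ i, W (u i) = c i • u (τ i)) (x : H) :
    ‖ContinuousLinearMap.adjoint W x‖ = ‖x‖ := by
  have h1 := hu (ContinuousLinearMap.adjoint W x)
  simp only [ContinuousLinearMap.adjoint_inner_left, hW, inner_smul_right, norm_mul, hc,
    one_mul] at h1
  have h2 := h1.unique (hu.reindex τ x)
  exact (pow_left_inj₀ (norm_nonneg _) (norm_nonneg _) two_ne_zero).1 h2

theorem IsParseval.norm_inner_cov [CompleteSpace H] {u : ι → H} (hu : IsParseval u)
    (W : H →L[ℂ] H) (hinj : Function.Injective W) (τ : ι ≃ ι) (c : ι → ℂ) (hc : ∀ i, ‖c i‖ = 1)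
    (hW : ∀ i, W (u i) = c i • u (τ i)) (i j : ι) :
    ‖⟪u (τ i), u (τ j)⟫_ℂ‖ = ‖⟪u i, u j⟫_ℂ‖ := by
  have h1 := (ContinuousLinearMap.norm_map_iff_adjoint_comp_self
    (ContinuousLinearMap.adjoint W)).1 (hu.norm_adjoint W τ c hc hW)
  rw [ContinuousLinearMap.adjoint_adjoint] at h1
  have h2 : ∀ y, W (ContinuousLinearMap.adjoint W y) = y := fun y => by
    simpa using congrArg (fun L : H →L[ℂ] H => L y) h1
  have h3 : ∀ y, ContinuousLinearMap.adjoint W (W y) = y := fun y => hinj (h2 (W y))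
  have h4 : ⟪W (u i), W (u j)⟫_ℂ = ⟪u i, u j⟫_ℂ := by
    rw [← ContinuousLinearMap.adjoint_inner_right, h3]
  rw [← h4, hW, hW, inner_smul_left, inner_smul_right, norm_mul, norm_mul]
  simp [hc]

theorem IsParseval.shift_int [CompleteSpace H] {u : ℤ → H} (hu : IsParseval u)
    (hn : ∀ i j, ‖u i‖ = ‖u j‖) (T : H →L[ℂ] H) (hT : ∀ k, T (u k) = u (k + 1)) (j k : ℤ) :
    ⟪u (j + 1), u (k + 1)⟫_ℂ = ⟪u j, u k⟫_ℂ := by
  have h1 := hu.norm_adjoint T (Equiv.addRight 1) (fun _ => 1) (by simp) (by simpa using hT)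
  have h2 : ContinuousLinearMap.adjoint T (u (k + 1)) = u k := by
    have h3 : ‖u k - ContinuousLinearMap.adjoint T (u (k + 1))‖ ^ 2 = 0 := by
      rw [@norm_sub_sq ℂ, h1, ContinuousLinearMap.adjoint_inner_right, hT,
        inner_self_eq_norm_sq, hn k (k + 1)]
      ring
    have h4 : u k - ContinuousLinearMap.adjoint T (u (k + 1)) = 0 := by simpa using h3
    exact (sub_eq_zero.1 h4).symm
  rw [← hT j, ← ContinuousLinearMap.adjoint_inner_right, h2]

theorem IsParseval.shift_nat [CompleteSpace H] {u : ℕ → H} (hu : IsParseval u)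
    (hn : ∀ i j, ‖u i‖ = ‖u j‖) (T : H →L[ℂ] H) (hT : ∀ k, T (u k) = u (k + 1)) (k : ℕ) :
    ⟪u (k + 1), u 0⟫_ℂ = 0 := by
  have h1 : ∀ x, ‖ContinuousLinearMap.adjoint T x‖ ^ 2 + ‖⟪x, u 0⟫_ℂ‖ ^ 2 = ‖x‖ ^ 2 := by
    intro x
    have h2 := hu (ContinuousLinearMap.adjoint T x)
    simp only [ContinuousLinearMap.adjoint_inner_left, hT] at h2
    have h3 := (hasSum_nat_add_iff (f := fun k => ‖⟪x, u k⟫_ℂ‖ ^ 2) 1).1 h2
    have h4 := h3.unique (hu x)
    simpa using h4
  have h3 : 0 ≤ ‖u k - ContinuousLinearMap.adjoint T (u (k + 1))‖ ^ 2 := by positivity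
  rw [@norm_sub_sq ℂ, ContinuousLinearMap.adjoint_inner_right, hT,
    inner_self_eq_norm_sq, hn k (k + 1)] at h3
  have h4 := h1 (u (k + 1))
  have h5 : ‖⟪u (k + 1), u 0⟫_ℂ‖ ^ 2 = 0 := le_antisymm (by linarith) (by positivity)
  simpa using h5

theorem IsParseval.exists_hilbertBasis [CompleteSpace H] [Nontrivial H] {u : ι → H}
    (hu : IsParseval u) (hn : ∀ i j, ‖u i‖ = ‖u j‖)
    (ho : ∀ i j, i ≠ j → ⟪u i, u j⟫_ℂ = 0) : ∃ e : HilbertBasis ι ℂ H, ⇑e = u := by
  classical
  have hone : ∀ i, ‖u i‖ = 1 := by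
    intro i
    have h1 : HasSum (fun k => ‖⟪u i, u k⟫_ℂ‖ ^ 2) (‖⟪u i, u i⟫_ℂ‖ ^ 2) :=
      hasSum_single i (fun k hk => by simp [ho i k (Ne.symm hk)])
    have h2 := h1.unique (hu (u i))
    rw [inner_self_eq_norm_sq_to_K] at h2
    simp only [norm_pow, RCLike.norm_ofReal, abs_norm] at h2
    have hne : ‖u i‖ ≠ 0 := by
      intro h0
      have hz : ∀ k, u k = 0 := fun k => norm_eq_zero.1 ((hn k i).trans h0)
      obtain ⟨x, hx⟩ := exists_ne (0 : H)
      have h3 := hu x
      simp only [hz, inner_zero_right, norm_zero, ne_eq, OfNat.ofNat_ne_zero, not_false_eq_true,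
        zero_pow] at h3
      have h4 := h3.unique hasSum_zero
      exact hx (by simpa using h4)
    have h3 : ‖u i‖ ^ 2 * (‖u i‖ ^ 2 - 1) = 0 := by linarith
    rcases mul_eq_zero.1 h3 with h | h
    · exact absurd (pow_eq_zero_iff two_ne_zero |>.1 h) hne
    · have h5 : ‖u i‖ ^ 2 = 1 ^ 2 := by linarith
      exact (pow_left_inj₀ (norm_nonneg _) zero_le_one two_ne_zero).1 h5
  have hon : Orthonormal ℂ u := ⟨hone, fun i j hij => ho i j hij⟩
  exact ⟨HilbertBasis.mkOfOrthogonalEqBot hon hu.dense_span,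
    HilbertBasis.coe_mkOfOrthogonalEqBot _ _⟩

theorem exists_extension [CompleteSpace H] {I : Type} [Add I] [One I] (f : I → H)
    (hd : (Submodule.span ℂ (Set.range f))ᗮ = ⊥) (hT : HasBoundedRepresentation f) :
    ∃ T : H →L[ℂ] H, ∀ k, T (f k) = f (k + 1) := by
  obtain ⟨T, hT⟩ := hT
  have hdense : DenseRange (Submodule.span ℂ (Set.range f)).subtypeL := by
    have h1 : (Submodule.span ℂ (Set.range f)).topologicalClosure = ⊤ :=
      Submodule.topologicalClosure_eq_top_iff.2 hd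
    have h2 : Dense ((Submodule.span ℂ (Set.range f) : Submodule ℂ H) : Set H) :=
      Submodule.dense_iff_topologicalClosure_eq_top.2 h1
    simpa [DenseRange] using h2
  refine ⟨T.extend (Submodule.span ℂ (Set.range f)).subtypeL, fun k => ?_⟩
  have := T.extend_eq hdense isUniformEmbedding_subtype_val.isUniformInducing
    ⟨f k, Submodule.subset_span (Set.mem_range_self k)⟩
  rw [hT k] at this
  exact this

theorem abstract_main [CompleteSpace H] [Nontrivial H] (f : ℤ × ℤ → H) (hf : IsFrame f)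
    (V : ℤ × ℤ → H →L[ℂ] H) (hVinj : ∀ ν, Function.Injective (V ν))
    (c : ℤ × ℤ → ℤ × ℤ → ℂ) (hc : ∀ ν l, ‖c ν l‖ = 1)
    (hV : ∀ ν l, V ν (f l) = c ν l • f (l + ν)) :
    (∀ σ : ℕ ≃ ℤ × ℤ, HasBoundedRepresentation (f ∘ σ) → IsRieszBasis f) ∧
    (∀ σ : ℤ ≃ ℤ × ℤ, HasBoundedRepresentation (f ∘ σ) → IsRieszBasis f) := by
  obtain ⟨R, hu⟩ := exists_parseval f hf
  set u : ℤ × ℤ → H := fun k => R.symm (f k) with hudef
  have hfu : ∀ k, f k = R (u k) := fun k => by simp [hudef]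
  -- covariance of the Gram matrix
  have hcov : ∀ ν i j, ‖⟪u (i + ν), u (j + ν)⟫_ℂ‖ = ‖⟪u i, u j⟫_ℂ‖ := by
    intro ν i j
    refine hu.norm_inner_cov ((R.symm : H →L[ℂ] H) ∘L V ν ∘L (R : H →L[ℂ] H)) ?_
      (Equiv.addRight ν) (c ν) (hc ν) ?_ i j
    · exact R.symm.injective.comp ((hVinj ν).comp R.injective)
    · intro l
      simp [hudef, hV]
  have hn : ∀ i j, ‖u i‖ = ‖u j‖ := by
    intro i j
    have := hcov (i - j) j j
    rw [add_sub_cancel, inner_self_eq_norm_sq_to_K, inner_self_eq_norm_sq_to_K] at this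
    simp only [norm_pow, RCLike.norm_ofReal, abs_norm] at this
    exact (pow_left_inj₀ (norm_nonneg _) (norm_nonneg _) two_ne_zero).1 this
  have hconcl : (∀ i j, i ≠ j → ⟪u i, u j⟫_ℂ = 0) → IsRieszBasis f := by
    intro ho
    obtain ⟨e, he⟩ := hu.exists_hilbertBasis hn ho
    exact ⟨e, R, fun k => by rw [he, hfu]⟩
  -- transport of a bounded representation to the Parseval frame
  have htrans : ∀ {I : Type} [Add I] [One I] (σ : I ≃ ℤ × ℤ), HasBoundedRepresentation (f ∘ σ) →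
      ∃ T : H →L[ℂ] H, ∀ k, T (u (σ k)) = u (σ (k + 1)) := by
    intro I _ _ σ hrep
    have hd : (Submodule.span ℂ (Set.range (f ∘ σ)))ᗮ = ⊥ := by
      obtain ⟨A, B, hA, hB, hAB⟩ := hf
      rw [Submodule.eq_bot_iff]
      intro x hx
      have h0 : ∀ k, ⟪x, f k⟫_ℂ = 0 := fun k =>
        Submodule.inner_left_of_mem_orthogonal
          (Submodule.subset_span (Set.mem_range.2 ⟨σ.symm k, by simp⟩)) hx
      have h1 := (hAB x).2.1
      simp only [h0, norm_zero, ne_eq, OfNat.ofNat_ne_zero, not_false_eq_true, zero_pow,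
        tsum_zero] at h1
      have h2 : ‖x‖ ^ 2 ≤ 0 := by
        by_contra hcon
        push Not at hcon
        nlinarith [mul_pos hA hcon]
      have h3 : ‖x‖ ^ 2 = 0 := le_antisymm h2 (by positivity)
      simpa using h3
    obtain ⟨T, hT⟩ := exists_extension (f ∘ σ) hd hrep
    refine ⟨(R.symm : H →L[ℂ] H) ∘L T ∘L (R : H →L[ℂ] H), fun k => ?_⟩
    have := hT k
    simp only [Function.comp] at this
    simp [hudef, this]
  constructor
  · intro σ hrep
    obtain ⟨T, hT⟩ := htrans σ hrep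
    apply hconcl
    intro i j hij
    have h1 := (hu.reindex σ).shift_nat (fun i j => hn _ _) T hT
    have h2 := hcov (σ 0 - j) i j
    rw [add_sub_cancel] at h2
    obtain ⟨m, hm⟩ := σ.surjective (i + (σ 0 - j))
    have hm0 : m ≠ 0 := by
      rintro rfl
      apply hij
      have : i - j = 0 := by
        have h5 : σ 0 + (i - j) = σ 0 := by rw [hm]; rw [← hm]; nth_rewrite 2 [hm]; abel
        simpa using h5
      exact sub_eq_zero.1 this
    obtain ⟨k, rfl⟩ := Nat.exists_eq_succ_of_ne_zero hm0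
    rw [← hm, h1 k] at h2
    exact norm_eq_zero.1 (by simpa using h2.symm)
  · intro σ hrep
    obtain ⟨T, hT⟩ := htrans σ hrep
    apply hconcl
    have h1 := (hu.reindex σ).shift_int (fun i j => hn _ _) T hT
    have h2 : ∀ (n j k : ℤ), ⟪u (σ (j + n)), u (σ (k + n))⟫_ℂ = ⟪u (σ j), u (σ k)⟫_ℂ := by
      intro n
      induction n using Int.induction_on with
      | zero => simp
      | succ n ih =>
        intro j k
        rw [← add_assoc, ← add_assoc, h1, ih]
      | pred n ih =>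
        intro j k
        rw [← h1, ← ih j k]
        congr 3 <;> ring
    let h : ℤ → ℝ := fun j => ‖⟪u (σ j), u (σ 0)⟫_ℂ‖
    let F : ℤ × ℤ → ℝ := fun l => ‖⟪u l, u 0⟫_ℂ‖
    have hF : ∀ j k, h (j - k) = F (σ j - σ k) := by
      intro j k
      simp only [h, F]
      rw [← h2 k (j - k) 0, ← hcov (σ k) (σ j - σ k) 0]
      simp
    have hfin : ∀ t > 0, {j | t ≤ h j}.Finite := by
      intro t ht
      have hs := ((hu.reindex σ) (u (σ 0))).summable
      have h3 := hs.tendsto_cofinite_zero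
      have h4 : ∀ᶠ j in Filter.cofinite, ‖⟪u (σ 0), u (σ j)⟫_ℂ‖ ^ 2 < t ^ 2 :=
        h3.eventually (gt_mem_nhds (by positivity))
      rw [Filter.eventually_cofinite] at h4
      refine h4.subset fun j hj => ?_
      simp only [Set.mem_ofPred_eq, not_lt, h] at hj ⊢
      rw [norm_inner_symm]
      exact pow_le_pow_left₀ ht.le hj 2
    have hzero := growth σ h F hF (fun j => norm_nonneg _) hfin
    intro i j hij
    obtain ⟨p, rfl⟩ := σ.surjective i
    obtain ⟨q, rfl⟩ := σ.surjective j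
    have hpq : p - q ≠ 0 := fun h0 => hij (by rw [sub_eq_zero.1 h0])
    have h5 := hzero _ hpq
    simp only [h] at h5
    rw [← h2 q (p - q) 0] at h5
    simpa using h5

end Pool.Agent.MP_6c6e33_an

end
end

section

/-!
Time-frequency shifts on `L²(ℝ)` and the covariance of Gabor systems.
-/

open MeasureTheory

noncomputable section

namespace Pool.Agent.MP_6c6e33_an

theorem coe_translation (a : ℝ) (f : L2) :
    translation a f =ᵐ[volume] fun x : ℝ => f (x - a) :=
  MemLp.coeFn_toLp _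

theorem coe_modulation (b : ℝ) (f : L2) :
    modulation b f =ᵐ[volume] fun x : ℝ => Complex.exp (2 * Real.pi * Complex.I * b * x) * f x :=
  MemLp.coeFn_toLp _

theorem ae_shift {p : ℝ → Prop} (h : ∀ᵐ x : ℝ, p x) (a : ℝ) : ∀ᵐ x : ℝ, p (x - a) :=
  (measurePreserving_sub_right volume a).quasiMeasurePreserving.ae h

theorem norm_exp_two_pi (t : ℝ) : ‖Complex.exp (2 * Real.pi * Complex.I * t)‖ = 1 := by
  have h : (2 * Real.pi * Complex.I * t : ℂ) = ((2 * Real.pi * t : ℝ) : ℂ) * Complex.I := by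
    push_cast; ring
  rw [h, Complex.norm_exp_ofReal_mul_I]

theorem coe_shift (s t : ℝ) (f : L2) :
    modulation s (translation t f) =ᵐ[volume]
      fun x : ℝ => Complex.exp (2 * Real.pi * Complex.I * s * x) * f (x - t) := by
  filter_upwards [coe_modulation s (translation t f), coe_translation t f] with x h1 h2
  rw [h1, h2]

/-- The time-frequency shift as a linear map. -/
def shiftLin (s t : ℝ) : L2 →ₗ[ℂ] L2 where
  toFun f := modulation s (translation t f)
  map_add' f g := by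
    apply Lp.ext
    filter_upwards [coe_shift s t (f + g), coe_shift s t f, coe_shift s t g,
      ae_shift (Lp.coeFn_add f g) t,
      Lp.coeFn_add (modulation s (translation t f)) (modulation s (translation t g))]
      with x h1 h2 h3 h4 h5
    rw [h1, h5, Pi.add_apply, h2, h3, h4, Pi.add_apply, mul_add]
  map_smul' c f := by
    apply Lp.ext
    filter_upwards [coe_shift s t (c • f), coe_shift s t f,
      ae_shift (Lp.coeFn_smul c f) t,
      Lp.coeFn_smul c (modulation s (translation t f))]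
      with x h1 h2 h4 h5
    rw [RingHom.id_apply, h1, h5, Pi.smul_apply, h2, h4, Pi.smul_apply, smul_eq_mul, smul_eq_mul]
    ring

theorem norm_shiftLin (s t : ℝ) (f : L2) : ‖shiftLin s t f‖ = ‖f‖ := by
  have h1 : ‖translation t f‖ = ‖f‖ := by
    rw [← Lp.norm_compMeasurePreserving f (measurePreserving_sub_right volume t)]
    congr 1
    apply Lp.ext
    filter_upwards [coe_translation t f,
      Lp.coeFn_compMeasurePreserving f (measurePreserving_sub_right volume t)] with x h1 h2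
    rw [h1, h2]; rfl
  rw [← h1]
  change ‖modulation s (translation t f)‖ = _
  rw [Lp.norm_def, Lp.norm_def]
  congr 1
  apply eLpNorm_congr_norm_ae
  filter_upwards [coe_modulation s (translation t f)] with x h
  rw [h, norm_mul, mul_assoc, ← Complex.ofReal_mul, norm_exp_two_pi, one_mul]

/-- The time-frequency shift as a linear isometry. -/
def shiftIso (s t : ℝ) : L2 →ₗᵢ[ℂ] L2 := ⟨shiftLin s t, norm_shiftLin s t⟩

theorem shift_gabor (a b : ℝ) (g : L2) (ν l : ℤ × ℤ) :
    shiftIso (ν.1 * b) (ν.2 * a) (gabor a b g l) =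
      Complex.exp (2 * Real.pi * Complex.I * ((-(l.1 * b * (ν.2 * a)) : ℝ) : ℂ)) •
        gabor a b g (l + ν) := by
  apply Lp.ext
  filter_upwards [coe_shift (ν.1 * b) (ν.2 * a) (gabor a b g l),
    ae_shift (coe_shift (l.1 * b) (l.2 * a) g) (ν.2 * a),
    coe_shift ((l + ν).1 * b) ((l + ν).2 * a) g,
    Lp.coeFn_smul (Complex.exp (2 * Real.pi * Complex.I * ((-(l.1 * b * (ν.2 * a)) : ℝ) : ℂ)))
      (gabor a b g (l + ν))] with x h1 h2 h3 h4
  change (modulation (ν.1 * b) (translation (ν.2 * a) (gabor a b g l))) x = _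
  rw [h1, h4, Pi.smul_apply, smul_eq_mul]
  unfold gabor
  rw [h2, h3, ← mul_assoc, ← mul_assoc, ← Complex.exp_add, ← Complex.exp_add]
  congr 2
  · simp only [Prod.fst_add]; push_cast; ring
  · simp only [Prod.snd_add]; push_cast; ring

instance : Nontrivial L2 := by
  refine ⟨⟨indicatorConstLp 2 (measurableSet_Icc (a := (0 : ℝ)) (b := 1)) (by simp) (1 : ℂ), 0, ?_⟩⟩
  intro h
  have := congrArg norm h
  rw [norm_indicatorConstLp (by simp) (by simp)] at this
  simp at this

theorem gabor_main (a b : ℝ) (g : L2) (hframe : IsFrame (gabor a b g))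
    (hover : ¬ IsRieszBasis (gabor a b g)) :
    (∀ σ : ℕ ≃ ℤ × ℤ, ¬ HasBoundedRepresentation (gabor a b g ∘ σ)) ∧
    (∀ σ : ℤ ≃ ℤ × ℤ, ¬ HasBoundedRepresentation (gabor a b g ∘ σ)) := by
  have h := abstract_main (gabor a b g) hframe
    (fun ν => (shiftIso (ν.1 * b) (ν.2 * a)).toContinuousLinearMap)
    (fun ν => (shiftIso (ν.1 * b) (ν.2 * a)).injective)
    (fun ν l => Complex.exp (2 * Real.pi * Complex.I * ((-(l.1 * b * (ν.2 * a)) : ℝ) : ℂ)))
    (fun ν l => norm_exp_two_pi _) (fun ν l => shift_gabor a b g ν l)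
  exact ⟨fun σ hσ => hover (h.1 σ hσ), fun σ hσ => hover (h.2 σ hσ)⟩

end Pool.Agent.MP_6c6e33_an

end
end
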